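import Mathlib
import Pool.Agent.Q207.Coh3

set_option autoImplicit false

/-!
# A cov(M)-Luzin set, for singular cov(M), which is a union of fewer than cov(M) meagre sets

Let `κ` be a strong limit cardinal of cofinality `ω₁` of the ground model, and let `P` be the
forcing notion adding generic reals `c_a` for the `a` in the disjoint union of `ω₁` and a well-order
of type `κ`, by finite conditions. Split the well-order into `ω₁` many blocks of size less than `κ`,
and for `j` in the block `b(j)` let `z_j` be the real with even part `c_{b(j)}` and odd part `c_j`.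
A meagre set coded by a name with countable support `S` contains `z_j` only if `j` or `b(j)` is
in `S`, so it contains fewer than `κ` of the `z_j`; and the `z_j` with `b(j) = y` are in a closed
nowhere dense set. In the extension `cov(M) = 𝔠 = κ` is singular of cofinality `ω₁`.
-/

namespace Pool.Agent.Results.MP_54b694_lc.CoveredLuzin

open Cardinal Ordinal Pool.Agent.Helper669.Forcing

/-- There is a forcing notion preserving all cardinals, and a singular cardinal `κ` of cofinality
`ℵ₁`, such that it is forced that `cov(M) = 𝔠 = κ` and that some `κ`-Luzin set is a union of `ℵ₁`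
many meagre sets. -/
theorem result : ∃ (P : Type) (_ : Preorder P) (κ : Cardinal.{0}), Nonempty P ∧
    ℵ₁ < κ ∧ κ.ord.cof = ℵ₁ ∧
    ∀ p : P, p ∈ CardinalsPreserved.{0, 0} P ∧ p ∈ ContinuumIs P κ ∧ p ∈ CovIs P κ ∧
      p ∈ Q207.Coh.HasCoveredLuzinSet P ℵ₁ κ := by
  have hcof : (ℶ_ ω₁ : Cardinal.{0}).ord.cof = ℵ₁ := Pool.Agent.Helper669.Card.cof_beth
  have hlim : (ℶ_ ω₁ : Cardinal.{0}).IsStrongLimit :=
    isStrongLimit_beth.2 (isSuccLimit_omega 1).isSuccPrelimit
  obtain ⟨P, hP, hne, h⟩ := Q207.Coh.main hcof hlim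
  refine ⟨P, hP, ℶ_ ω₁, hne, ?_, hcof, h⟩
  have h0 : (ℵ₀ : Cardinal.{0}) < ℶ_ ω₁ := Pool.Agent.Helper669.Card.aleph0_lt_of_cof hcof
  have h1 : (ℵ₁ : Cardinal.{0}) ≤ 2 ^ (ℵ₀ : Cardinal.{0}) := by
    rw [← succ_aleph0]
    exact Order.succ_le_of_lt (cantor _)
  exact h1.trans_lt (hlim.isStrongPrelimit h0)

end Pool.Agent.Results.MP_54b694_lc.CoveredLuzin
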